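import Pool.Agent.Helper15.MAD.TraceC

/-!
# Homological = numerical equivalence implies that the category of homological motives is regular

(Jannsen's semisimplicity theorem in the form needed here.)
-/

open CategoryTheory MonoidalCategory Limits TensorProduct
open Pool.Agent.Helper15.Murre Pool.Agent.Helper58.MAD Pool.Agent.Helper90.MAD

universe w v u

set_option linter.unusedSectionVars false

namespace Pool.Agent.Helper15.MADR

variable {C : Type u} [Category.{v} C] [Preadditive C] [Linear ℚ C]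
  [MonoidalCategory C] [SymmetricCategory C] [MonoidalPreadditive C] [MonoidalLinear ℚ C]
  [RigidCategory C] {F : Type w} [Field F]

/-- Numerical equivalence is equal to homological equivalence: a cycle class `α ∈ CH_l(M)` whose
intersection numbers with all `β ∈ CH^l(M) = Hom(M, 1(l))` are zero is homologically trivial. -/
def HomNum (W : MotivicHomology C F) : Prop :=
  ∀ (l : ℤ) (M : C) (α : W.CH l M), (∀ β : M ⟶ W.T l, α ≫ β = 0) → W.H.map α = 0

/-- every morphism of homological motives has a generalised inverse -/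
def Reg (W : MotivicHomology C F) : Prop :=
  ∀ (V N : C) (i : V ⟶ N), ∃ μ : N ⟶ V, W.H.map (i ≫ μ ≫ i) = W.H.map i

variable {W : MotivicHomology C F}

/-! ### The categorical trace -/

lemma ptr_unit {M : C} (f : M ⟶ M) :
    ptr (𝟙_ C) (𝟙_ C) M ((λ_ M).hom ≫ f ≫ (λ_ M).inv) =
      η_ M (Mᘁ) ≫ (f ▷ (Mᘁ)) ≫ (β_ M (Mᘁ)).hom ≫ ε_ M (Mᘁ) := by
  unfold ptr
  monoidal

/-- the supertrace as the categorical trace -/
lemma str_of_trace {M : C} (f : M ⟶ M) (q : ℚ)
    (h : η_ M (Mᘁ) ≫ (f ▷ (Mᘁ)) ≫ (β_ M (Mᘁ)).hom ≫ ε_ M (Mᘁ) = q • 𝟙 (𝟙_ C)) :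
    W.str f = (q : F) := by
  have h1 := W.str_ptr (𝟙_ C) M ((λ_ M).hom ≫ f ≫ (λ_ M).inv)
  rw [ptr_unit, h] at h1
  have h2 : W.str ((λ_ M).hom ≫ f ≫ (λ_ M).inv) = W.str f := by
    rw [W.str_comm]
    simp
  rw [h2] at h1
  rw [← h1]
  have hfin := W.finite (𝟙_ C)
  unfold MotivicHomology.str
  have h3 : W.sgn (𝟙_ C) ∘ₗ (W.H.map (q • 𝟙 (𝟙_ C))).hom = (q : F) • LinearMap.id := by
    ext x
    rw [LinearMap.comp_apply, W.map_smul_apply, W.map_id_apply, map_smul,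
      W.sgn_apply (W.unit_mem x)]
    simp
  rw [h3, map_smul, LinearMap.trace_id]
  have h4 : Module.finrank F (W.H.obj (𝟙_ C)) = 1 := by
    rw [← W.tateRank 0]
    exact (LinearEquiv.finrank_eq (W.H.mapIso W.tateZero).toLinearEquiv).symm
  rw [h4]
  simp

/-- duality: a functional on `N ⊗ Vᘁ` is given by a morphism `N ⟶ V` -/
lemma exists_dual {V N : C} (b : N ⊗ Vᘁ ⟶ 𝟙_ C) :
    ∃ β : N ⟶ V, (β ▷ (Vᘁ)) ≫ (β_ V (Vᘁ)).hom ≫ ε_ V (Vᘁ) = b := by
  letI : ExactPairing (Vᘁ) V := BraidedCategory.exactPairing_swap V (Vᘁ)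
  refine ⟨tensorRightHomEquiv N (Vᘁ) V (𝟙_ C) b ≫ (λ_ V).hom, ?_⟩
  have h1 := (tensorRightHomEquiv N (Vᘁ) V (𝟙_ C)).left_inv b
  have h2 : ∀ g : N ⟶ 𝟙_ C ⊗ V, (tensorRightHomEquiv N (Vᘁ) V (𝟙_ C)).invFun g =
      (g ▷ (Vᘁ)) ≫ (α_ _ _ _).hom ≫ (𝟙_ C) ◁ ((β_ V (Vᘁ)).hom ≫ ε_ V (Vᘁ)) ≫ (ρ_ _).hom :=
    fun g => rfl
  rw [h2, Equiv.toFun_as_coe] at h1
  refine Eq.trans ?_ h1
  generalize (tensorRightHomEquiv N (Vᘁ) V (𝟙_ C)) b = g
  rw [comp_whiskerRight]
  simp only [Category.assoc]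
  congr 1
  monoidal

variable (W) in
/-- the class of a morphism `f : M ⟶ N` in `CH_0(N ⊗ Mᘁ)` -/
noncomputable def nm {M N : C} (f : M ⟶ N) : W.CH 0 (N ⊗ Mᘁ) :=
  W.tateZero.hom ≫ η_ M (Mᘁ) ≫ f ▷ (Mᘁ)

/-- `H_*(f)` is determined by the class of `f` -/
lemma map_eq_zero_of_nm {M N : C} (f : M ⟶ N) (h : W.H.map (nm W f) = 0) : W.H.map f = 0 := by
  have h1 : W.H.map (η_ M (Mᘁ) ≫ f ▷ (Mᘁ)) = 0 := by
    have h2 : η_ M (Mᘁ) ≫ f ▷ (Mᘁ) = W.tateZero.inv ≫ nm W f := by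
      unfold nm
      rw [Iso.inv_hom_id_assoc]
    rw [h2, Functor.map_comp, h, comp_zero]
  have h2 : W.H.map (((η_ M (Mᘁ)) ≫ f ▷ (Mᘁ)) ▷ M) = 0 := by
    have := W.H_tensor_zero (η_ M (Mᘁ) ≫ f ▷ (Mᘁ)) (𝟙 M) h1
    rwa [tensorHom_id] at this
  have h3 : f = (λ_ M).inv ≫ (((η_ M (Mᘁ)) ≫ f ▷ (Mᘁ)) ▷ M) ≫ (α_ _ _ _).hom ≫
      (N ◁ ε_ M (Mᘁ)) ≫ (ρ_ N).hom := by
    rw [comp_whiskerRight, Category.assoc, associator_naturality_left_assoc,
      ← whisker_exchange_assoc, ExactPairing.evaluation_coevaluation_assoc]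
    simp
  rw [h3, Functor.map_comp, Functor.map_comp, h2]
  simp

/-- if `f` is not homologically trivial, some intersection number `str (f ≫ β)` is not zero -/
theorem HomNum.exists_str (h : HomNum W) {V N : C} (f : V ⟶ N) (hf : W.H.map f ≠ 0) :
    ∃ β : N ⟶ V, W.str (f ≫ β) ≠ 0 := by
  by_contra hcon
  push Not at hcon
  apply hf
  apply map_eq_zero_of_nm
  apply h
  intro b
  obtain ⟨β, hβ⟩ := exists_dual (b ≫ W.tateZero.hom)
  obtain ⟨q, hq⟩ := W.endUnit (η_ V (Vᘁ) ≫ ((f ≫ β) ▷ (Vᘁ)) ≫ (β_ V (Vᘁ)).hom ≫ ε_ V (Vᘁ))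
  have h1 := str_of_trace (W := W) (f ≫ β) q hq
  rw [hcon β] at h1
  have hchar := W.charZero
  have h2 : q = 0 := by exact_mod_cast h1.symm
  rw [h2, zero_smul, comp_whiskerRight] at hq
  simp only [Category.assoc] at hq
  rw [hβ] at hq
  have h3 : nm W f ≫ b = W.tateZero.hom ≫ (η_ V (Vᘁ) ≫ f ▷ (Vᘁ) ≫ b ≫ W.tateZero.hom) ≫
      W.tateZero.inv := by
    unfold nm
    simp
  rw [h3, hq]
  simp

/-! ### Rational traces -/

/-- the traces of algebraic endomorphisms are rational, if the sign conjecture holds -/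
lemma trace_rat {M : C} (h : SignConj W M) (f : M ⟶ M) :
    ∃ q : ℚ, LinearMap.trace F (W.H.obj M) (W.H.map f).hom = (q : F) := by
  obtain ⟨p, hp⟩ := h
  obtain ⟨q, hq⟩ := W.str_rat M (f ≫ (p + p - 𝟙 M))
  refine ⟨q, ?_⟩
  rw [← hq]
  unfold MotivicHomology.str
  congr 1
  apply lin_ext
  intro j x hx
  rw [LinearMap.comp_apply, W.map_comp_apply, W.map_sub_apply, W.map_add_apply, W.map_id_apply,
    hp j _ (W.map_gr _ _ _ hx)]
  by_cases hj : Even j
  · rw [if_pos hj, add_sub_cancel_right, W.sgn_apply (W.map_gr _ _ _ hx),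
      Int.negOnePow_even j hj]
    simp
  · rw [if_neg hj, add_zero, zero_sub, map_neg, W.sgn_apply (W.map_gr _ _ _ hx),
      Int.negOnePow_odd j (Int.not_even_iff_odd.1 hj)]
    simp

/-- if `f` is not homologically trivial, some trace of `H_*(f ≫ β)` is not zero -/
theorem HomNum.exists_trace (h : HomNum W) {V N : C} (hs : SignConj W V) (f : V ⟶ N)
    (hf : W.H.map f ≠ 0) :
    ∃ β : N ⟶ V, LinearMap.trace F (W.H.obj V) (W.H.map (f ≫ β)).hom ≠ 0 := by
  obtain ⟨β, hβ⟩ := h.exists_str f hf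
  obtain ⟨p, hp⟩ := hs
  refine ⟨β ≫ (p + p - 𝟙 V), ?_⟩
  have h1 : LinearMap.trace F (W.H.obj V) (W.H.map (f ≫ β ≫ (p + p - 𝟙 V))).hom =
      W.str (f ≫ β) := by
    unfold MotivicHomology.str
    congr 1
    apply lin_ext
    intro j x hx
    rw [LinearMap.comp_apply, ← Category.assoc, W.map_comp_apply, W.map_sub_apply,
      W.map_add_apply, W.map_id_apply, hp j _ (W.map_gr _ _ _ hx)]
    by_cases hj : Even j
    · rw [if_pos hj, add_sub_cancel_right, W.sgn_apply (W.map_gr _ _ _ hx),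
        Int.negOnePow_even j hj]
      simp
    · rw [if_neg hj, add_zero, zero_sub, W.sgn_apply (W.map_gr _ _ _ hx),
        Int.negOnePow_odd j (Int.not_even_iff_odd.1 hj)]
      simp
  rw [h1]
  exact hβ

/-- **Homological = numerical equivalence implies regularity** (Jannsen) -/
theorem HomNum.reg (h : HomNum W) (hs : ∀ M : C, SignConj W M) : Reg W := by
  intro V N i
  have hchar := W.charZero
  have hfin := W.finite V
  let T : Set (Module.End F (W.H.obj V)) := {t | ∃ μ : N ⟶ V, t = (W.H.map (i ≫ μ)).hom}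
  by_contra hcon
  have hcon' : ∀ μ : N ⟶ V, W.H.map (i ≫ μ ≫ i) ≠ W.H.map i := by
    intro μ hμ
    exact hcon ⟨μ, hμ⟩
  have key : ∀ E ∈ T, E * E = E → ∃ x ∈ T, E * x = 0 ∧ x * E = 0 ∧
      LinearMap.trace F (W.H.obj V) x ≠ 0 := by
    rintro E ⟨μ, rfl⟩ hE
    have h1 : W.H.map ((𝟙 V - i ≫ μ) ≫ i) ≠ 0 := by
      intro h2
      apply hcon' μ
      have hadd := W.additive
      rw [Preadditive.sub_comp, Category.id_comp, Functor.map_sub, Category.assoc] at h2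
      exact (sub_eq_zero.1 h2).symm
    obtain ⟨β, hβ⟩ := h.exists_trace (hs V) _ h1
    refine ⟨(W.H.map ((𝟙 V - i ≫ μ) ≫ i ≫ β ≫ (𝟙 V - i ≫ μ))).hom,
      ⟨(β - μ ≫ i ≫ β) ≫ (𝟙 V - i ≫ μ), ?_⟩, ?_, ?_, ?_⟩
    · congr 2
      simp only [Preadditive.sub_comp, Preadditive.comp_sub, Category.id_comp, Category.comp_id,
        Category.assoc]
    · apply LinearMap.ext
      intro x
      have h2 := fun y => LinearMap.congr_fun hE y
      simp only [Module.End.mul_apply, W.map_comp_apply, W.map_sub_apply, W.map_id_apply,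
        map_sub, LinearMap.zero_apply] at h2 ⊢
      simp only [h2, sub_self]
    · apply LinearMap.ext
      intro x
      have h2 := LinearMap.congr_fun hE x
      simp only [Module.End.mul_apply, W.map_comp_apply, W.map_sub_apply, W.map_id_apply,
        map_sub, LinearMap.zero_apply] at h2 ⊢
      simp only [h2, sub_self]
    · have h3 : (W.H.map ((𝟙 V - i ≫ μ) ≫ i ≫ β ≫ (𝟙 V - i ≫ μ))).hom =
          (W.H.map (𝟙 V - i ≫ μ)).hom ∘ₗ (W.H.map (((𝟙 V - i ≫ μ) ≫ i) ≫ β)).hom := by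
        apply LinearMap.ext
        intro x
        simp only [LinearMap.comp_apply, W.map_comp_apply]
      rw [h3, LinearMap.trace_comp_comm']
      have h4 : (W.H.map (((𝟙 V - i ≫ μ) ≫ i) ≫ β)).hom ∘ₗ (W.H.map (𝟙 V - i ≫ μ)).hom =
          (W.H.map (((𝟙 V - i ≫ μ) ≫ i) ≫ β)).hom := by
        apply LinearMap.ext
        intro x
        have h2 := LinearMap.congr_fun hE x
        simp only [Module.End.mul_apply, LinearMap.comp_apply, W.map_comp_apply, W.map_sub_apply,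
          W.map_id_apply, map_sub] at h2 ⊢
        simp only [h2, sub_self, sub_zero]
      rw [h4]
      exact hβ
  have h1 : (1 : Module.End F (W.H.obj V)) ∈ T := by
    apply unit_mem_of_trace (T := T)
    · refine ⟨0, ?_⟩
      apply LinearMap.ext
      intro x
      simp [W.map_zero']
    · rintro x ⟨μ₁, rfl⟩ y ⟨μ₂, rfl⟩
      refine ⟨μ₁ + μ₂, ?_⟩
      apply LinearMap.ext
      intro x
      rw [LinearMap.add_apply, ← W.map_add_apply, Preadditive.comp_add]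
    · rintro x ⟨μ₁, rfl⟩ y ⟨μ₂, rfl⟩
      refine ⟨μ₂ ≫ i ≫ μ₁, ?_⟩
      apply LinearMap.ext
      intro x
      simp only [Module.End.mul_apply, W.map_comp_apply]
    · rintro q x ⟨μ, rfl⟩
      refine ⟨q • μ, ?_⟩
      apply LinearMap.ext
      intro x
      rw [LinearMap.smul_apply, ← W.map_smul_apply, Linear.comp_smul]
    · rintro x ⟨μ, rfl⟩
      exact trace_rat (hs V) _
    · intro E hE hEE _
      exact key E hE hEE
  obtain ⟨x, _, h2, _, h3⟩ := key 1 h1 (by rw [one_mul])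
  rw [one_mul] at h2
  rw [h2, map_zero] at h3
  exact h3 rfl

end Pool.Agent.Helper15.MADR
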