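import Pool.Agent.Helper15.MADR.Reg
import Pool.Agent.Helper88.MADR.Defs

/-!
# The Künneth conjecture passes to extension fields, by the global invariant cycle theorem
-/

open CategoryTheory MonoidalCategory Limits TensorProduct
open Pool.Agent.Helper15.Murre Pool.Agent.Helper58.MAD

universe w v u

set_option linter.unusedSectionVars false

namespace Pool.Agent.Helper15.MADR

section defs

variable {C : Type u} [Category.{v} C] [Preadditive C] [Linear ℚ C]
  [MonoidalCategory C] [SymmetricCategory C] [RigidCategory C] {F : Type w} [Field F]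
  {C' : Type u} [Category.{v} C'] [Preadditive C'] [Linear ℚ C']
  [MonoidalCategory C'] [SymmetricCategory C'] [RigidCategory C']

/-- The class of a correspondence `f : M ⟶ N` in `CH_0(N ⊗ Mᘁ)`. -/
def corr (W : MotivicHomology C F) {M N : C} (f : M ⟶ N) : W.CH 0 (N ⊗ Mᘁ) :=
  W.tateZero.hom ≫ η_ M (Mᘁ) ≫ f ▷ (Mᘁ)

/-- `C`, `C'` stand for the motives over an algebraically closed field `k` and an algebraically
closed extension `K` of `k`, `Φ` for the base change functor, and `P = h(X)` for a smooth projective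
variety `X` over `K`. The variety `X` is a fibre of a smooth projective family over a variety `U`
over `k`. Let `P₀ = h(X_s)` for a point `s` of `U` over `k`, and `M = h(Y)(-dim U - dim X)` for a
smooth projective compactification (in positive characteristic: an alteration) `Y` of the family
of the products `X_t × X_t`, `t ∈ U`. -/
structure Specialisation {W : MotivicHomology C F} {W' : MotivicHomology C' F} {Φ : C ⥤ C'}
    (B : BaseChange W W' Φ) (P : C') where
  /-- the motive of the special fibre -/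
  P₀ : C
  /-- the motive of the total space of the family `X_t × X_t` -/
  M : C
  /-- restriction to the special fibre -/
  r : M ⟶ P₀ ⊗ P₀ᘁ
  /-- restriction to the given fibre -/
  b : Φ.obj M ⟶ P ⊗ Pᘁ
  /-- the specialisation isomorphism `H_*(X_s) = H_*(X)` -/
  sp : W.H.obj P₀ ≃ₗ[F] W'.H.obj P
  sp_gr : ∀ (j : ℤ) (x : W.H.obj P₀), x ∈ W.gr P₀ j ↔ sp x ∈ W'.gr P j
  /-- if the correspondences `f₀` of `X_s` and `f` of `X` are the restrictions of a cycle on the
  total space, then `f₀` and `f` act in the same way on homology -/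
  compat : ∀ (β : W.CH 0 M) (f₀ : P₀ ⟶ P₀) (f : P ⟶ P), β ≫ r = corr W f₀ →
    (B.tate 0).hom ≫ Φ.map β ≫ b = corr W' f →
      ∀ x, (W'.H.map f).hom (sp x) = sp ((W.H.map f₀).hom x)
  /-- the global invariant cycle theorem: every class on `X_s × X_s` which is invariant under the
  monodromy is the restriction of a class on the total space; for example, the classes of the
  Künneth projectors -/
  invariant : ∀ (i : ℤ) (p : P₀ ⟶ P₀),
    (∀ j, ∀ x ∈ W.gr P₀ j, (W.H.map p).hom x = if j = i then x else 0) →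
      ∀ t : W.H.obj (W.T 0), ∃ y : W.H.obj M, (W.H.map r).hom y = (W.H.map (corr W p)).hom t

end defs

section proofs

variable {C : Type u} [Category.{v} C] [Preadditive C] [Linear ℚ C]
  [MonoidalCategory C] [SymmetricCategory C] [MonoidalPreadditive C] [MonoidalLinear ℚ C]
  [RigidCategory C] {F : Type w} [Field F]
  {C' : Type u} [Category.{v} C'] [Preadditive C'] [Linear ℚ C']
  [MonoidalCategory C'] [SymmetricCategory C'] [MonoidalPreadditive C'] [MonoidalLinear ℚ C']
  [RigidCategory C']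
  {W : MotivicHomology C F} {W' : MotivicHomology C' F} {Φ : C ⥤ C'} {B : BaseChange W W' Φ}

lemma exists_corr (W : MotivicHomology C F) {M N : C} (α : W.CH 0 (N ⊗ Mᘁ)) :
    ∃ f : M ⟶ N, corr W f = α := by
  refine ⟨(λ_ M).inv ≫ (tensorRightHomEquiv (𝟙_ C) M (Mᘁ) N).symm (W.tateZero.inv ≫ α), ?_⟩
  have h1 := (tensorRightHomEquiv (𝟙_ C) M (Mᘁ) N).apply_symm_apply (W.tateZero.inv ≫ α)
  set g := (tensorRightHomEquiv (𝟙_ C) M (Mᘁ) N).symm (W.tateZero.inv ≫ α) with hg
  have h2 : (tensorRightHomEquiv (𝟙_ C) M (Mᘁ) N) g =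
      (ρ_ _).inv ≫ (𝟙_ C) ◁ η_ M (Mᘁ) ≫ (α_ _ _ _).inv ≫ g ▷ (Mᘁ) := rfl
  have h3 : η_ M (Mᘁ) ≫ ((λ_ M).inv ≫ g) ▷ (Mᘁ) =
      (ρ_ _).inv ≫ (𝟙_ C) ◁ η_ M (Mᘁ) ≫ (α_ _ _ _).inv ≫ g ▷ (Mᘁ) := by
    rw [comp_whiskerRight]
    simp only [← Category.assoc]
    congr 1
    monoidal
  unfold corr
  rw [h3, ← h2, h1]
  simp

lemma map_eq_of_corr (W : MotivicHomology C F) {M N : C} (f g : M ⟶ N)
    (h : W.H.map (corr W f) = W.H.map (corr W g)) : W.H.map f = W.H.map g := by
  have hadd := W.additive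
  have h1 : nm W (f - g) = corr W f - corr W g := by
    unfold nm corr
    rw [sub_whisk]
    simp only [Preadditive.comp_sub]
  have h2 := map_eq_zero_of_nm (W := W) (f - g) (by rw [h1, Functor.map_sub, h, sub_self])
  rw [Functor.map_sub] at h2
  exact sub_eq_zero.1 h2

/-- **The Künneth conjecture passes to extension fields.** -/
theorem Specialisation.kunneth {P : C'} (S : Specialisation B P) (hK : KunnethHom W S.P₀)
    (hR : Reg W) : KunnethHom W' P := by
  intro i
  obtain ⟨p, hp⟩ := hK i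
  obtain ⟨μ, hμ⟩ := hR _ _ S.r
  obtain ⟨f₀, hf₀⟩ := exists_corr W ((corr W p ≫ μ) ≫ S.r)
  obtain ⟨f, hf⟩ := exists_corr W' ((B.tate 0).hom ≫ Φ.map (corr W p ≫ μ) ≫ S.b)
  have h1 := S.compat _ f₀ f hf₀.symm hf.symm
  have h2 : W.H.map f₀ = W.H.map p := by
    apply map_eq_of_corr
    rw [hf₀]
    ext t
    change (W.H.map ((corr W p ≫ μ) ≫ S.r)).hom t = (W.H.map (corr W p)).hom t
    obtain ⟨y, hy⟩ := S.invariant i p hp t
    rw [W.map_comp_apply, W.map_comp_apply, ← hy, ← W.map_comp_apply, ← W.map_comp_apply, hμ]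
  refine ⟨f, ?_⟩
  intro j x hx
  have h3 : S.sp.symm x ∈ W.gr S.P₀ j := by
    rw [S.sp_gr, LinearEquiv.apply_symm_apply]
    exact hx
  have h4 := h1 (S.sp.symm x)
  rw [LinearEquiv.apply_symm_apply, h2, hp j _ h3] at h4
  rw [h4]
  split_ifs
  · rw [LinearEquiv.apply_symm_apply]
  · rw [map_zero]

end proofs

end Pool.Agent.Helper15.MADR
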